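import Pool.Agent.L0h94.SP.StmA
import Pool.Agent.N614.PF.Chi

/-!
# Module CHIM of project SP: formal properties of the Gram matrices

After `Pool.Agent.N614.PF.Chi`.
-/

set_option autoImplicit false
set_option linter.all false

open Polynomial Matrix NumberField

namespace Pool.Agent.L0h68.SP

open Pool.Agent.N783.PF
open Pool.Agent.N783.PQ (chp form Dist)
open Pool.Agent.N352.PJ (Mt Jm)
open Pool.Agent.N262.PJ (det_Jm mul_Jm_apply)
open Pool.Agent.N614.PF
open Pool.Agent.L0h94.SP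

/-- **Formal properties of the Gram matrices.** -/
theorem t_CHIM : S_CHIM := by
  intro g M0 F L _ _ _ _ _ f θ hG α Λ e hM0 htr hα hΛ heΛ he
  have hfd := findim hG
  have hA : ∀ i j, ∃ a : 𝓞 F, (a : F) = hG.top (e i * e j / α) := fun i j =>
    ⟨⟨_, hΛ.int _ (heΛ i) _ (heΛ j)⟩, rfl⟩
  have hB : ∀ i j, ∃ a : 𝓞 F, (a : F) = hG.top (θ * (e i * e j) / α) := fun i j => by
    refine ⟨⟨_, hΛ.int _ (hΛ.stab _ (heΛ i)) _ (heΛ j)⟩, ?_⟩
    change hG.top (θ * e i * e j / α) = _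
    rw [mul_assoc]
  choose A₀ hA₀ using hA
  choose B₀ hB₀ using hB
  let A : Mt g (𝓞 F) := Matrix.of A₀
  let B : Mt g (𝓞 F) := Matrix.of B₀
  have hl : Gr hG α e A B := ⟨hA₀, hB₀⟩
  obtain ⟨b, hb⟩ : ∃ b : Module.Basis (Fin (2 * g + 1)) F L, ∀ i, b i = e i := by
    refine ⟨basisOfLinearIndependentOfCardEqFinrank he (by rw [hG.rank, Fintype.card_fin]),
      fun i => ?_⟩
    rw [coe_basisOfLinearIndependentOfCardEqFinrank]
  obtain ⟨d, hd0, hd⟩ := det_eq hl hα b hb
  have hinj : Function.Injective (algebraMap (𝓞 F) F) := RingOfIntegers.coe_injective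
  have hN0 : Algebra.norm F α ≠ 0 := fun h0 => hα (Algebra.norm_eq_zero_iff.1 h0)
  have hAF : ((A.det : 𝓞 F) : F) ≠ 0 := by
    rw [hd]
    exact mul_ne_zero (mul_ne_zero (pow_ne_zero _ hd0) (pow_ne_zero _ (by norm_num)))
      (inv_ne_zero hN0)
  have hA0 : A.det ≠ 0 := by
    intro h0
    rw [h0] at hAF
    exact hAF (map_zero _)
  have hdF : IsUnit (mF A).det := by
    rw [mF_det]
    exact hAF.isUnit
  have hop := gram_op hl b hb
  have hinv : (mF A)⁻¹ * mF B = Algebra.leftMulMatrix b θ := by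
    rw [← hop, ← Matrix.mul_assoc, Matrix.nonsing_inv_mul _ hdF, Matrix.one_mul]
  have hC : mF (A.adjugate * B) = ((A.det : 𝓞 F) : F) • Algebra.leftMulMatrix b θ := by
    rw [mF_mul, mF_adj, ← hop, ← Matrix.mul_assoc, Matrix.adjugate_mul, mF_det,
      Matrix.smul_mul, Matrix.one_mul]
  have hcp : (A.adjugate * B).charpoly = f.scaleRoots A.det := by
    apply Polynomial.map_injective (algebraMap (𝓞 F) F) hinj
    rw [← Matrix.charpoly_map, Polynomial.map_scaleRoots]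
    · change (mF (A.adjugate * B)).charpoly = _
      rw [hC, charpoly_smul _ hAF, charpoly_mulMatrix hG]
    · rw [hG.mon.leadingCoeff, map_one]
      exact one_ne_zero
  refine ⟨A, B, hl, ?_, ?_, hA0, ?_, ?_, ?_, ?_⟩
  · ext i j
    have h1 : ((A j i : 𝓞 F) : F) = ((A i j : 𝓞 F) : F) := by rw [hl.gA, hl.gA, mul_comm (e j)]
    exact congrArg _ (hinj h1)
  · ext i j
    have h1 : ((B j i : 𝓞 F) : F) = ((B i j : 𝓞 F) : F) := by rw [hl.gB, hl.gB, mul_comm (e j)]
    exact congrArg _ (hinj h1)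
  · rw [chp, hinv, charpoly_mulMatrix hG]
  · apply hinj
    have h1 : algebraMap (𝓞 F) F (A.adjugate * B).trace = (mF (A.adjugate * B)).trace := by
      rw [Matrix.trace, Matrix.trace, map_sum]
      rfl
    rw [h1, hC, Matrix.trace_smul, Matrix.trace_eq_neg_charpoly_coeff, charpoly_mulMatrix hG,
      Fintype.card_fin, Nat.add_sub_cancel, coeff_map, htr, map_zero, neg_zero, smul_zero]
  · rintro ⟨s, hs⟩
    have hs0 : s ≠ 0 := by
      rintro rfl
      rw [mul_zero] at hs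
      exact hN0 hs
    have h4 : ((-1 : F)) ^ g * (-1) ^ g = 1 := by
      rw [← mul_pow, neg_one_mul, neg_neg, one_pow]
    have h3 : (d / s) ^ 2 = (((-1) ^ g * A.det : 𝓞 F) : F) := by
      have : (((-1) ^ g * A.det : 𝓞 F) : F) = (-1) ^ g * ((A.det : 𝓞 F) : F) := by
        push_cast
        ring
      rw [this, hd, hs]
      calc (d / s) ^ 2 = (d / s) ^ 2 * 1 := by rw [mul_one]
        _ = (d / s) ^ 2 * ((-1 : F) ^ g * (-1) ^ g) := by rw [h4]
        _ = _ := by
          rw [div_pow, sq s, div_eq_mul_inv]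
          ring
    have h5 : IsIntegral ℤ (d / s) := by
      have h6 : IsIntegral ℤ ((d / s) ^ 2) := by
        rw [h3]
        exact RingOfIntegers.isIntegral_coe _
      exact h6.of_pow (by norm_num)
    obtain ⟨r, hr⟩ : ∃ r : 𝓞 F, algebraMap (𝓞 F) F r = d / s := ⟨⟨_, h5⟩, rfl⟩
    refine ⟨r, ?_, ?_⟩
    · rintro rfl
      rw [map_zero] at hr
      exact (div_ne_zero hd0 hs0) hr.symm
    · apply hinj
      have h7 : algebraMap (𝓞 F) F ((-1) ^ g * r ^ 2) = (-1) ^ g * (d / s) ^ 2 := by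
        rw [map_mul, map_pow, map_pow, map_neg, map_one, hr]
      rw [h7, h3]
      have h8 : (((-1) ^ g * A.det : 𝓞 F) : F) = (-1) ^ g * ((A.det : 𝓞 F) : F) := by
        push_cast
        ring
      rw [h8, ← mul_assoc, h4, one_mul]
  · intro 𝔮 h𝔮 h𝔮0 hδ
    have hmax : 𝔮.IsMaximal := h𝔮.isMaximal h𝔮0
    have hdom : IsDomain (𝓞 F ⧸ 𝔮) := Ideal.Quotient.isDomain 𝔮
    have hex : ∀ a : 𝓞 F, a ∉ 𝔮 → ∃ t : 𝓞 F, Ideal.Quotient.mk 𝔮 a * Ideal.Quotient.mk 𝔮 t = 1 := by
      intro a ha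
      have h1 : Ideal.Quotient.mk 𝔮 a ≠ 0 := fun h => ha (Ideal.Quotient.eq_zero_iff_mem.1 h)
      obtain ⟨c, hc⟩ := Ideal.Quotient.exists_inv h1
      obtain ⟨t, rfl⟩ := Ideal.Quotient.mk_surjective c
      exact ⟨t, hc⟩
    obtain ⟨t, ht⟩ := hex _ hδ
    have ht0 : Ideal.Quotient.mk 𝔮 t ≠ 0 := right_ne_zero_of_mul_eq_one ht
    have hrd : (rm 𝔮 A).det = Ideal.Quotient.mk 𝔮 A.det := ((Ideal.Quotient.mk 𝔮).map_det A).symm
    have hra : (rm 𝔮 A).adjugate = rm 𝔮 A.adjugate := ((Ideal.Quotient.mk 𝔮).map_adjugate A).symm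
    have hri : (rm 𝔮 A)⁻¹ = Ideal.Quotient.mk 𝔮 t • rm 𝔮 A.adjugate := by
      apply Matrix.inv_eq_left_inv
      have ht' : Ideal.Quotient.mk 𝔮 t * Ideal.Quotient.mk 𝔮 A.det = 1 := by
        rw [mul_comm]; exact ht
      rw [Matrix.smul_mul, ← hra, Matrix.adjugate_mul, hrd, smul_smul, ht', one_smul]
    have hro : (rm 𝔮 A)⁻¹ * rm 𝔮 B = Ideal.Quotient.mk 𝔮 t • rm 𝔮 (A.adjugate * B) := by
      rw [hri, Matrix.smul_mul]
      congr 1
      exact (Matrix.map_mul).symm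
    have hmv : ∀ (M : Mt g (𝓞 F)) (v : Fin (2 * g + 1) → 𝓞 F),
        (fun i => (((M *ᵥ v) i : 𝓞 F) : F)) = mF M *ᵥ fun i => ((v i : 𝓞 F) : F) := by
      intro M v
      funext i
      change algebraMap (𝓞 F) F (∑ j, M i j * v j) =
        ∑ j, algebraMap (𝓞 F) F (M i j) * algebraMap (𝓞 F) F (v j)
      rw [map_sum]
      simp only [map_mul]
    have hmk : ∀ (M : Mt g (𝓞 F)) (v : Fin (2 * g + 1) → 𝓞 F),
        (fun i => Ideal.Quotient.mk 𝔮 (v i)) ⬝ᵥ (rm 𝔮 M *ᵥ fun i => Ideal.Quotient.mk 𝔮 (v i)) =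
          Ideal.Quotient.mk 𝔮 (v ⬝ᵥ (M *ᵥ v)) := by
      intro M v
      rw [dotProduct, dotProduct, map_sum]
      refine Finset.sum_congr rfl fun i _ => ?_
      rw [map_mul, Matrix.mulVec, Matrix.mulVec, dotProduct, dotProduct, map_sum]
      simp only [map_mul, Matrix.map_apply, rm]
    have hpow : ∀ m : ℕ, rm 𝔮 A * ((rm 𝔮 A)⁻¹ * rm 𝔮 B) ^ m =
        Ideal.Quotient.mk 𝔮 t ^ m • rm 𝔮 (A * (A.adjugate * B) ^ m) := by
      intro m
      rw [hro, _root_.smul_pow, Matrix.mul_smul]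
      congr 1
      have h1 : rm 𝔮 (A * (A.adjugate * B) ^ m) = rm 𝔮 A * rm 𝔮 ((A.adjugate * B) ^ m) :=
        Matrix.map_mul
      have h2 : rm 𝔮 ((A.adjugate * B) ^ m) = rm 𝔮 (A.adjugate * B) ^ m :=
        ((Ideal.Quotient.mk 𝔮).mapMatrix).map_pow (A.adjugate * B) m
      rw [h1, h2]
    have hcv : ∀ (m : ℕ) (c : Fin (2 * g + 1) → 𝓞 F),
        ((c ⬝ᵥ ((A * (A.adjugate * B) ^ m) *ᵥ c) : 𝓞 F) : F) =
          (fun i => ((c i : 𝓞 F) : F)) ⬝ᵥ
            (mF (A * (A.adjugate * B) ^ m) *ᵥ fun i => ((c i : 𝓞 F) : F)) := by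
      intro m c
      rw [← hmv]
      change algebraMap (𝓞 F) F (∑ i, c i * ((A * (A.adjugate * B) ^ m) *ᵥ c) i) =
        ∑ i, algebraMap (𝓞 F) F (c i) *
          algebraMap (𝓞 F) F (((A * (A.adjugate * B) ^ m) *ᵥ c) i)
      rw [map_sum]
      simp only [map_mul]
    refine ⟨?_, ?_, ?_⟩
    · rw [chp, hro, charpoly_smul _ ht0]
      have h1 : (rm 𝔮 (A.adjugate * B)).charpoly = (rd 𝔮 f).scaleRoots (Ideal.Quotient.mk 𝔮 A.det) := by
        rw [rm, Matrix.charpoly_map, hcp, Polynomial.map_scaleRoots]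
        rw [hG.mon.leadingCoeff, map_one]
        exact one_ne_zero
      rw [h1, ← scaleRoots_mul, ht, scaleRoots_one]
    · rintro ⟨x, hx, s, hs, hm⟩
      obtain ⟨s', hs'⟩ := hex s hs
      have hy : ∀ j, ∃ a : 𝓞 F, (a : F) = hG.top (e j * x / α) := fun j =>
        ⟨⟨_, hΛ.int _ (heΛ j) _ hx⟩, rfl⟩
      choose y hy using hy
      let c : Fin (2 * g + 1) → 𝓞 F := A.adjugate *ᵥ y
      have hyF : (fun i => ((y i : 𝓞 F) : F)) = mF A *ᵥ fun i => b.repr x i := by
        funext i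
        rw [hy, gram_mul hl b hb, Matrix.mulVec, dotProduct]
      have hcF : (fun i => ((c i : 𝓞 F) : F)) = ((A.det : 𝓞 F) : F) • fun i => b.repr x i := by
        rw [hmv, hyF, Matrix.mulVec_mulVec, mF_adj, Matrix.adjugate_mul, mF_det,
          Matrix.smul_mulVec, Matrix.one_mulVec]
      have key : ∀ m, ((c ⬝ᵥ ((A * (A.adjugate * B) ^ m) *ᵥ c) : 𝓞 F) : F) =
          ((A.det : 𝓞 F) : F) ^ (m + 2) * hG.top (θ ^ m * x ^ 2 / α) := by
        intro m
        have h1 : ((c ⬝ᵥ ((A * (A.adjugate * B) ^ m) *ᵥ c) : 𝓞 F) : F) =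
            (fun i => ((c i : 𝓞 F) : F)) ⬝ᵥ
              (mF (A * (A.adjugate * B) ^ m) *ᵥ fun i => ((c i : 𝓞 F) : F)) := by
          rw [← hmv]
          change algebraMap (𝓞 F) F (∑ i, c i * ((A * (A.adjugate * B) ^ m) *ᵥ c) i) =
            ∑ i, algebraMap (𝓞 F) F (c i) *
              algebraMap (𝓞 F) F (((A * (A.adjugate * B) ^ m) *ᵥ c) i)
          rw [map_sum]
          simp only [map_mul]
        rw [h1, hcF, mF_mul, mF_pow, hC, _root_.smul_pow, ← map_pow (Algebra.leftMulMatrix b) θ m, Matrix.mul_smul,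
          Matrix.mulVec_smul, Matrix.smul_mulVec, smul_dotProduct, dotProduct_smul,
          dotProduct_smul, form_eq hl b hb]
        simp only [smul_eq_mul]
        ring
      refine ⟨fun i => Ideal.Quotient.mk 𝔮 (t * s' * c i), fun m hm2 => ?_⟩
      obtain ⟨a, ha, hae⟩ := hm m hm2
      have hk : c ⬝ᵥ ((A * (A.adjugate * B) ^ m) *ᵥ c) =
          A.det ^ (m + 2) * (a + if m = 2 * g then s ^ 2 else 0) := by
        apply hinj
        refine (key m).trans ?_
        have h2 : hG.top (θ ^ m * x ^ 2 / α) =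
            ((a + (if m = 2 * g then s ^ 2 else 0) : 𝓞 F) : F) := by
          have h3 : hG.top (θ ^ m * x ^ 2 / α) = (a : F) + if m = 2 * g then (s : F) ^ 2 else 0 := by
            rw [hae]; ring
          rw [h3]
          change _ = algebraMap (𝓞 F) F (a + if m = 2 * g then s ^ 2 else 0)
          rw [map_add]
          split_ifs <;> simp
        rw [h2, map_mul, map_pow]
      have hξ : (fun i => Ideal.Quotient.mk 𝔮 (t * s' * c i)) =
          Ideal.Quotient.mk 𝔮 (t * s') • fun i => Ideal.Quotient.mk 𝔮 (c i) := by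
        funext i
        rw [Pi.smul_apply, smul_eq_mul, map_mul]
      have h0 : Ideal.Quotient.mk 𝔮 a = 0 := Ideal.Quotient.eq_zero_iff_mem.2 ha
      rw [form, hpow, hξ, Matrix.mulVec_smul, Matrix.smul_mulVec, smul_dotProduct,
        dotProduct_smul, dotProduct_smul, hmk, hk]
      simp only [smul_eq_mul, map_mul, map_pow, map_add, h0, zero_add]
      split_ifs with h
      · rw [map_pow]
        calc _ = (Ideal.Quotient.mk 𝔮 A.det * Ideal.Quotient.mk 𝔮 t) ^ (m + 2) *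
              (Ideal.Quotient.mk 𝔮 s * Ideal.Quotient.mk 𝔮 s') ^ 2 := by ring
          _ = 1 := by rw [ht, hs', one_pow, one_pow, one_mul]
      · rw [map_zero]
        ring
    · rintro ⟨ξ, hξ⟩
      choose c hc using fun i => Ideal.Quotient.mk_surjective (I := 𝔮) (ξ i)
      have hstab : ∀ (m : ℕ) (y : L), y ∈ Λ → θ ^ m * y ∈ Λ := by
        intro m
        induction m with
        | zero => intro y hy; rwa [pow_zero, one_mul]
        | succ m ih =>
          intro y hy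
          rw [pow_succ, mul_assoc]
          exact ih _ (hΛ.stab y hy)
      set x : L := ∑ i, c i • e i with hx
      have hxΛ : x ∈ Λ := Submodule.sum_mem _ fun i _ => Λ.smul_mem _ (heΛ i)
      have hrep : (fun i => b.repr x i) = fun i => ((c i : 𝓞 F) : F) := by
        have h1 : x = ∑ i, ((c i : 𝓞 F) : F) • b i := by
          rw [hx]
          refine Finset.sum_congr rfl fun i _ => ?_
          rw [hb]
          exact (algebraMap_smul F (c i) (e i)).symm
        funext i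
        rw [h1, b.repr_sum_self]
      refine ⟨x, hxΛ, 1, (Ideal.ne_top_iff_one 𝔮).1 h𝔮.ne_top, fun m hm2 => ?_⟩
      obtain ⟨a0, ha0⟩ : ∃ a0 : 𝓞 F, (a0 : F) = hG.top (θ ^ m * x ^ 2 / α) := by
        refine ⟨⟨_, hΛ.int _ (hstab m x hxΛ) _ hxΛ⟩, ?_⟩
        change hG.top (θ ^ m * x * x / α) = _
        rw [mul_assoc, sq]
      have hk : c ⬝ᵥ ((A * (A.adjugate * B) ^ m) *ᵥ c) = A.det ^ m * a0 := by
        apply hinj
        refine (hcv m c).trans ?_
        rw [← hrep, mF_mul, mF_pow, hC, _root_.smul_pow,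
          ← map_pow (Algebra.leftMulMatrix b) θ m, Matrix.mul_smul, Matrix.smul_mulVec,
          dotProduct_smul, form_eq hl b hb, ← ha0, map_mul, map_pow, smul_eq_mul]
      have h5 := hξ m hm2
      have h6 : ξ = fun i => Ideal.Quotient.mk 𝔮 (c i) := funext fun i => (hc i).symm
      rw [form, hpow, h6, Matrix.smul_mulVec, dotProduct_smul, hmk, hk, smul_eq_mul, map_mul,
        map_pow] at h5
      have h7 : Ideal.Quotient.mk 𝔮 a0 = if m = 2 * g then 1 else 0 := by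
        rw [← h5]
        calc Ideal.Quotient.mk 𝔮 a0 =
            (Ideal.Quotient.mk 𝔮 A.det * Ideal.Quotient.mk 𝔮 t) ^ m * Ideal.Quotient.mk 𝔮 a0 := by
              rw [ht, one_pow, one_mul]
          _ = _ := by ring
      refine ⟨a0 - (if m = 2 * g then 1 else 0), ?_, ?_⟩
      · rw [← Ideal.Quotient.eq_zero_iff_mem, map_sub, h7]
        split_ifs <;> simp
      · rw [← ha0]
        change algebraMap (𝓞 F) F (a0 - (if m = 2 * g then 1 else 0)) = algebraMap (𝓞 F) F a0 - _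
        rw [map_sub]
        split_ifs <;> simp

end Pool.Agent.L0h68.SP
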