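import Pool.Agent.N426.PF.Par

/-!
# Module SPX of project SP, part A: square classes at a prime modulo which `f` is irreducible
-/

set_option autoImplicit false
set_option linter.all false

open Polynomial IsDedekindDomain WithZero UniqueFactorizationMonoid NumberField
open scoped Classical

namespace Pool.Agent.L0h68.SP

open Pool.Agent.N874.PP (Ev Sq1)
open Pool.Agent.N862.PP (cn cn_sum sq1_mul_sq)
open Pool.Agent.N783.PF (IsGen fF SqF S_INT S_EXQ S_PAR S_PARQ S_NS S_PIN rd Cg GoodS)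
open Pool.Agent.N426.PF

variable {F L : Type} [Field F] [NumberField F] [Field L] [NumberField L] [Algebra F L] {g : ℕ}
  {f : (𝓞 F)[X]} {θ : L}

/-- the only prime over a prime modulo which `f` is irreducible -/
theorem inert_eq (hInt : S_INT) (h0 : IsGen g f θ) (hsq : SqF g f) {𝔭 : Ideal (𝓞 F)}
    (hp : 𝔭.IsPrime) (hp0 : 𝔭 ≠ ⊥) (hf : Irreducible (rd 𝔭 f)) (𝔓 : HeightOneSpectrum (𝓞 L))
    (hov : Ov 𝔭 𝔓) : 𝔓.asIdeal = 𝔭.map (algebraMap (𝓞 F) (𝓞 L)) := by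
  have h := toG h0
  obtain ⟨t, b, ht, hb⟩ := setup hInt h0 hsq
  have hfin : Module.Finite (𝓞 F) (𝓞 L) := Module.Finite.of_basis b
  have htf : Module.IsTorsionFree (𝓞 F) (𝓞 L) := tf_O (K := F) (L := L)
  have hI := map_ne (L := L) hp0
  have hsum := cn_map b hp hp0
  rw [cn_sum _ hI] at hsum
  have hle : ∀ J ∈ (normalizedFactors (𝔭.map (algebraMap (𝓞 F) (𝓞 L)))).toFinset,
      (normalizedFactors (𝔭.map (algebraMap (𝓞 F) (𝓞 L)))).count J * (2 * g + 1) ≤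
        (normalizedFactors (𝔭.map (algebraMap (𝓞 F) (𝓞 L)))).count J * cn (𝓞 F) 𝔭 J := by
    intro J hJ
    rw [Multiset.mem_toFinset] at hJ
    have hJp := prime_of_normalized_factor J hJ
    have hJ3 : J.IsPrime := Ideal.isPrime_of_prime hJp
    let 𝔔 : HeightOneSpectrum (𝓞 L) := ⟨J, hJ3, hJp.ne_zero⟩
    have ho : Ov 𝔭 𝔔 := (mem_nf hI 𝔔).1 hJ
    have h6 := cn_irr h0 ht hp hp0 hf ho
    generalize hk : (normalizedFactors (𝔭.map (algebraMap (𝓞 F) (𝓞 L)))).count J = k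
    have h7 : 2 * g + 1 ≤ cn (𝓞 F) 𝔭 J := h6
    exact Nat.mul_le_mul (le_refl k) h7
  have h1 := Finset.sum_le_sum hle
  rw [hsum, ← Finset.sum_mul, Multiset.toFinset_sum_count_eq] at h1
  have h2 : Multiset.card (normalizedFactors (𝔭.map (algebraMap (𝓞 F) (𝓞 L)))) ≤ 1 := by
    by_contra hc
    have : 2 * (2 * g + 1) ≤ Multiset.card (normalizedFactors (𝔭.map (algebraMap (𝓞 F) (𝓞 L)))) * (2 * g + 1) :=
      Nat.mul_le_mul_right _ (by omega)
    omega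
  have h3 : 𝔓.asIdeal ∈ normalizedFactors (𝔭.map (algebraMap (𝓞 F) (𝓞 L))) := (mem_nf hI 𝔓).2 hov
  have h4 : Multiset.card (normalizedFactors (𝔭.map (algebraMap (𝓞 F) (𝓞 L)))) = 1 := by
    have := Multiset.card_pos_iff_exists_mem.2 ⟨_, h3⟩
    omega
  obtain ⟨J, hJ⟩ := Multiset.card_eq_one.1 h4
  rw [hJ, Multiset.mem_singleton] at h3
  have h5 := Ideal.prod_normalizedFactors_eq_self hI
  rw [hJ, Multiset.prod_singleton] at h5
  rw [h3, h5]

/-- the square class at an inert prime -/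
theorem inert_sq (hInt : S_INT) (hPIN : S_PIN) (h0 : IsGen g f θ) (hsq : SqF g f)
    {𝔭 : Ideal (𝓞 F)} (hp : 𝔭.IsPrime) (hp0 : 𝔭 ≠ ⊥) (h2 : (2 : 𝓞 F) ∉ 𝔭)
    (hf : Irreducible (rd 𝔭 f)) {α : L} (hα : α ≠ 0) (hn : IsSquare (Algebra.norm F α))
    (𝔓 : HeightOneSpectrum (𝓞 L)) (hov : Ov 𝔭 𝔓) : Sq1 𝔓 α := by
  have h := toG h0
  obtain ⟨t, b, ht, hb⟩ := setup hInt h0 hsq
  have hm : 𝔭.IsMaximal := hp.isMaximal hp0
  have heq := inert_eq hInt h0 hsq hp hp0 hf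
  obtain ⟨y, hy⟩ := hPIN g F L f θ h0 hsq 𝔭 hp hp0 hf α hα hn 𝔓 hov
  have hvα : 𝔓.valuation L α ≠ 0 := (Valuation.ne_zero_iff _).mpr hα
  have hy0 : 𝔓.valuation L y ≠ 0 := by
    intro h'
    rw [h'] at hy
    exact hvα (by rw [hy]; simp)
  have hy00 : y ≠ 0 := (Valuation.ne_zero_iff _).1 hy0
  -- a unit
  have hu : 𝔓.valuation L (α / y ^ 2) = 1 := by
    rw [map_div₀, map_pow, ← hy, div_self hvα]
  obtain ⟨c, z, hc, hz⟩ := exists_den_p (O := 𝓞 L) h ht hp hp0 (α / y ^ 2) (by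
    intro 𝔓' hov'
    have : 𝔓' = 𝔓 := HeightOneSpectrum.ext ((heq 𝔓' hov').trans (heq 𝔓 hov).symm)
    rw [this, hu])
  have hc0 : algebraMap (𝓞 F) L c ≠ 0 := by
    intro h'
    have : c = 0 := algL_inj (K := F) (by rw [h', map_zero])
    exact hc (by rw [this]; exact Ideal.zero_mem _)
  have hvc : 𝔓.valuation L (algebraMap (𝓞 F) L c) = 1 := by
    rw [IsScalarTower.algebraMap_apply (𝓞 F) (𝓞 L) L]
    refine 𝔓.valuation_eq_one_iff_notMem.mpr ?_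
    rw [ov_iff hp hp0 hov]
    exact hc
  obtain ⟨x, hx⟩ : ∃ x : 𝓞 L, x = algebraMap (𝓞 F) (𝓞 L) c * z := ⟨_, rfl⟩
  have hxα : algebraMap (𝓞 L) L x = α * (algebraMap (𝓞 F) L c / y) ^ 2 := by
    rw [hx, map_mul, ← hz, ← IsScalarTower.algebraMap_apply (𝓞 F) (𝓞 L) L]
    field_simp
  have hcy : algebraMap (𝓞 F) L c / y ≠ 0 := div_ne_zero hc0 hy00
  rw [← sq1_mul_sq hcy, ← hxα]
  have hxv : 𝔓.valuation L (algebraMap (𝓞 L) L x) = 1 := by
    rw [hxα, map_mul, map_pow, map_div₀, hvc, hy, div_pow, one_pow, mul_one_div,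
      div_self (pow_ne_zero 2 hy0)]
  have hxm : x ∉ 𝔓.asIdeal := 𝔓.valuation_eq_one_iff_notMem.mp hxv
  -- the norm is a square
  obtain ⟨m, hmm⟩ : ∃ m : 𝓞 F, Algebra.norm (𝓞 F) x = m * m := by
    have h1 : IsSquare (algebraMap (𝓞 F) F (Algebra.norm (𝓞 F) x)) := by
      rw [norm_alg h b, hxα, map_mul, map_pow]
      exact hn.mul (IsSquare.sq _)
    obtain ⟨r, hr⟩ := h1
    have hint : IsIntegral (𝓞 F) r := by
      refine IsIntegral.of_pow (n := 2) (by norm_num) ?_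
      rw [sq, ← hr]
      exact isIntegral_algebraMap
    obtain ⟨m, rfl⟩ := IsIntegrallyClosed.isIntegral_iff.mp hint
    exact ⟨m, IsFractionRing.injective (𝓞 F) F (by rw [hr, map_mul])⟩
  set π := Ideal.Quotient.mk 𝔭 with hπ
  -- the residue field of `𝔓`
  have hm' : 𝔓.asIdeal.IsMaximal := 𝔓.isMaximal
  let _ : Field (𝓞 F ⧸ 𝔭) := Ideal.Quotient.field 𝔭
  let _ : Field (𝓞 L ⧸ 𝔓.asIdeal) := Ideal.Quotient.field 𝔓.asIdeal
  have hfk : Finite (𝓞 F ⧸ 𝔭) := 𝔭.finiteQuotientOfFreeOfNeBot hp0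
  have hfl : Finite (𝓞 L ⧸ 𝔓.asIdeal) := 𝔓.asIdeal.finiteQuotientOfFreeOfNeBot 𝔓.ne_bot
  have hchar : ringChar (𝓞 F ⧸ 𝔭) ≠ 2 := by
    intro h'
    have h3 : ((2 : ℕ) : 𝓞 F ⧸ 𝔭) = 0 := by
      rw [← h']
      exact ringChar.Nat.cast_ringChar
    apply h2
    rw [← Ideal.Quotient.eq_zero_iff_mem, map_ofNat]
    exact_mod_cast h3
  -- reduction to the residue field
  suffices hs : IsSquare (Ideal.Quotient.mk 𝔓.asIdeal x) by
    obtain ⟨s, hs⟩ := hs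
    obtain ⟨s, rfl⟩ := Ideal.Quotient.mk_surjective s
    refine ⟨algebraMap (𝓞 L) L s, ?_⟩
    rw [hxv, ← map_pow, ← map_sub]
    refine (𝔓.valuation_lt_one_iff_mem (K := L) _).mpr ?_
    rw [← Ideal.Quotient.eq_zero_iff_mem, map_sub, map_pow, hs]
    ring
  by_contra hns
  -- norms modulo `𝔭`
  have hnc : ∀ a a' : 𝓞 L, Ideal.Quotient.mk 𝔓.asIdeal a = Ideal.Quotient.mk 𝔓.asIdeal a' →
      π (Algebra.norm (𝓞 F) a) = π (Algebra.norm (𝓞 F) a') := by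
    intro a a' haa
    refine norm_congr b ?_
    rw [← heq 𝔓 hov]
    exact Ideal.Quotient.eq.1 haa
  -- the norm of `x` is not zero modulo `𝔭`
  have hm0 : π m ≠ 0 := by
    have h3 : Ideal.Quotient.mk 𝔓.asIdeal x ≠ 0 := fun h' =>
      hxm (Ideal.Quotient.eq_zero_iff_mem.1 h')
    obtain ⟨x', hx'⟩ := Ideal.Quotient.mk_surjective (I := 𝔓.asIdeal)
      (Ideal.Quotient.mk 𝔓.asIdeal x)⁻¹
    have h4 : Ideal.Quotient.mk 𝔓.asIdeal (x * x') = Ideal.Quotient.mk 𝔓.asIdeal 1 := by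
      rw [map_mul, hx', mul_inv_cancel₀ h3, map_one]
    have h5 := hnc _ _ h4
    rw [map_mul, map_mul, hmm, map_mul, map_one, map_one] at h5
    intro h'
    rw [h', zero_mul, zero_mul] at h5
    exact zero_ne_one h5
  -- a nonsquare
  obtain ⟨cb, hcb⟩ := FiniteField.exists_nonsquare hchar
  obtain ⟨c1, rfl⟩ := Ideal.Quotient.mk_surjective cb
  have hnc1 : π (Algebra.norm (𝓞 F) (algebraMap (𝓞 F) (𝓞 L) c1)) = π c1 ^ (2 * g + 1) := by
    rw [Algebra.norm_algebraMap_of_basis b, Fintype.card_fin, map_pow]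
  have hc10 : π c1 ≠ 0 := by
    intro h'
    exact hcb (by rw [show Ideal.Quotient.mk 𝔭 c1 = 0 from h']; exact IsSquare.zero)
  -- `c1 ^ (2 g + 1)` is not a square
  have hpow : ∀ v : 𝓞 F ⧸ 𝔭, π c1 ^ (2 * g + 1) ≠ v ^ 2 := by
    intro v hv
    apply hcb
    refine ⟨v / π c1 ^ g, ?_⟩
    have h3 : π c1 ^ g ≠ 0 := pow_ne_zero _ hc10
    show π c1 = v / π c1 ^ g * (v / π c1 ^ g)
    rw [div_mul_div_comm, ← sq, ← hv]
    field_simp
    ring
  by_cases hc1 : IsSquare (Ideal.Quotient.mk 𝔓.asIdeal (algebraMap (𝓞 F) (𝓞 L) c1))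
  · obtain ⟨s, hs⟩ := hc1
    obtain ⟨s, rfl⟩ := Ideal.Quotient.mk_surjective s
    rw [← map_mul] at hs
    have h3 := hnc _ _ hs
    rw [hnc1, map_mul, map_mul] at h3
    exact hpow (π (Algebra.norm (𝓞 F) s)) (by rw [h3, sq])
  · obtain ⟨s, hs⟩ : IsSquare (Ideal.Quotient.mk 𝔓.asIdeal (algebraMap (𝓞 F) (𝓞 L) c1) *
        Ideal.Quotient.mk 𝔓.asIdeal x) := by
      have : Fintype (𝓞 L ⧸ 𝔓.asIdeal) := Fintype.ofFinite _
      have h3 := quadraticChar_neg_one_iff_not_isSquare.2 hc1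
      have h4 := quadraticChar_neg_one_iff_not_isSquare.2 hns
      have h5 : Ideal.Quotient.mk 𝔓.asIdeal (algebraMap (𝓞 F) (𝓞 L) c1) *
          Ideal.Quotient.mk 𝔓.asIdeal x ≠ 0 := by
        refine mul_ne_zero (fun h' => hc1 ?_) (fun h' => hns ?_)
        · rw [h']; exact IsSquare.zero
        · rw [h']; exact IsSquare.zero
      refine (quadraticChar_one_iff_isSquare h5).1 ?_
      rw [map_mul, h3, h4]
      norm_num
    obtain ⟨s, rfl⟩ := Ideal.Quotient.mk_surjective s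
    rw [← map_mul, ← map_mul] at hs
    have h3 := hnc _ _ hs
    rw [map_mul, map_mul, map_mul, map_mul, hnc1, hmm, map_mul] at h3
    refine hpow (π (Algebra.norm (𝓞 F) s) / π m) ?_
    rw [div_pow, eq_div_iff (pow_ne_zero 2 hm0), sq (π m), h3, sq]

end Pool.Agent.L0h68.SP
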