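import Pool.Agent.L0h94.SP.StmB
import Pool.Agent.L0h68.SP.SPXa

/-!
# Module SPX of project SP: points with given classes at the primes dividing the twist
-/

set_option autoImplicit false
set_option linter.all false

open Polynomial IsDedekindDomain WithZero NumberField
open scoped Classical

namespace Pool.Agent.L0h68.SP

open Pool.Agent.N874.PP (Ev Sq1 U0)
open Pool.Agent.N862.PP (sq1_mul_sq)
open Pool.Agent.N783.PF (IsGen fF SqF S_INT S_EXQ S_PAR S_PARQ S_NS S_PIN S_CSQ rd Cg GoodS sp Dp)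
open Pool.Agent.N426.PF (IsG toG norm_lin ov_iff)
open Pool.Agent.L0h94.SP

section sq

variable {L : Type} [Field L] [NumberField L] {𝔓 : HeightOneSpectrum (𝓞 L)}

theorem sq1_mul' {x y : L} (hx : Sq1 𝔓 x) (hy : Sq1 𝔓 y) : Sq1 𝔓 (x * y) := by
  obtain ⟨s, hs⟩ := hx
  obtain ⟨r, hr⟩ := hy
  have hvs : 𝔓.valuation L (s ^ 2) = 𝔓.valuation L x := by
    have h3 : 𝔓.valuation L (x - (x - s ^ 2)) = 𝔓.valuation L x :=
      Valuation.map_sub_eq_of_lt_left _ hs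
    rw [sub_sub_cancel] at h3
    exact h3
  have hx0 : 0 < 𝔓.valuation L x := lt_of_le_of_lt zero_le' hs
  have hy0 : 0 < 𝔓.valuation L y := lt_of_le_of_lt zero_le' hr
  refine ⟨s * r, ?_⟩
  have e : x * y - (s * r) ^ 2 = (x - s ^ 2) * y + s ^ 2 * (y - r ^ 2) := by ring
  rw [e, map_mul (𝔓.valuation L) x y]
  refine Valuation.map_add_lt _ ?_ ?_
  · rw [map_mul]
    exact (mul_lt_mul_iff_left₀ hy0).2 hs
  · rw [map_mul, hvs]
    exact (mul_lt_mul_iff_right₀ hx0).2 hr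

theorem sq1_of_sq {s : L} (hs : s ≠ 0) : Sq1 𝔓 (s ^ 2) := by
  refine ⟨s, ?_⟩
  rw [sub_self, map_zero]
  exact zero_lt_iff.2 ((Valuation.ne_zero_iff _).2 (pow_ne_zero 2 hs))

theorem sq1_congr' {x x' : L} (h : 𝔓.valuation L (x' - x) < 𝔓.valuation L x) :
    Sq1 𝔓 x → Sq1 𝔓 x' := by
  have hv : 𝔓.valuation L x' = 𝔓.valuation L x := by
    have h1 := Valuation.map_add_eq_of_lt_left (𝔓.valuation L) h
    rwa [add_sub_cancel] at h1
  rintro ⟨s, hs⟩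
  refine ⟨s, ?_⟩
  have e : x' - s ^ 2 = (x' - x) + (x - s ^ 2) := by ring
  rw [e, hv]
  exact Valuation.map_add_lt _ h hs

end sq

variable {F L : Type} [Field F] [NumberField F] [Field L] [NumberField L] [Algebra F L] {g : ℕ}
  {f : (𝓞 F)[X]} {θ : L}

/-- `f(x) = f(0) + x (f₁ + x G)` -/
theorem eval_exp (f : (𝓞 F)[X]) (x : 𝓞 F) :
    ∃ G : 𝓞 F, f.eval x = f.coeff 0 + x * (f.coeff 1 + x * G) := by
  refine ⟨f.divX.divX.eval x, ?_⟩
  have h1 := congrArg (Polynomial.eval x) (divX_mul_X_add f)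
  have h2 := congrArg (Polynomial.eval x) (divX_mul_X_add f.divX)
  rw [eval_add, eval_mul, eval_X, eval_C] at h1 h2
  rw [coeff_divX] at h2
  rw [← h1, ← h2]
  ring

/-- the solution modulo `𝔭 ^ 2` -/
theorem exists_x0 {𝔭 : Ideal (𝓞 F)} (hp : 𝔭.IsPrime) (hp0 : 𝔭 ≠ ⊥) {f : (𝓞 F)[X]}
    (h0 : f.coeff 0 ∈ 𝔭) (h1 : f.coeff 1 ∉ 𝔭) {D : 𝓞 F} (hD : D ∈ 𝔭) :
    ∃ x : 𝓞 F, x ∈ 𝔭 ∧ f.eval x - D ∈ 𝔭 ^ 2 := by
  have hm : 𝔭.IsMaximal := hp.isMaximal hp0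
  obtain ⟨t, i, hi, ht⟩ := hm.exists_inv h1
  have hx : D - f.coeff 0 ∈ 𝔭 := 𝔭.sub_mem hD h0
  refine ⟨t * (D - f.coeff 0), 𝔭.mul_mem_left _ hx, ?_⟩
  obtain ⟨G, hG⟩ := eval_exp f (t * (D - f.coeff 0))
  have e : f.eval (t * (D - f.coeff 0)) - D = -(i * (D - f.coeff 0)) +
      (D - f.coeff 0) * (D - f.coeff 0) * (t ^ 2 * G) := by
    rw [hG]
    linear_combination (D - f.coeff 0) * ht
  rw [e, sq]
  exact Ideal.add_mem _ (Ideal.neg_mem_iff _ |>.2 (Ideal.mul_mem_mul hi hx))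
    (Ideal.mul_mem_right _ _ (Ideal.mul_mem_mul hx hx))

theorem t_SPX (hI : S_INT) (hE : S_EXQ) (hC : S_CSQ) (hN : S_NS) (hP : S_PARQ) (hPI : S_PIN) :
    S_SPX := by
  intro g W F L _ _ _ _ _ f θ S J 𝔮 r P hg hgen hsq hS hcong hJS q hqJ w hqw α hα hn hU
  have hqS : q ∈ S := hJS hqJ
  obtain ⟨hqp, -, -, hq8, hqun, hp, hqm, hrm, hrd, hri, hPm, hPd, hPt, hPc, hPi⟩ := hS q hqS
  have hq0 : (q : 𝓞 F) ≠ 0 := Nat.cast_ne_zero.2 hqp.ne_zero
  have hp0 : 𝔮 q ≠ ⊥ := by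
    intro h'
    rw [h', Ideal.mem_bot] at hqm
    exact hq0 hqm
  have hspan : ∀ 𝔭 : Ideal (𝓞 F), (q : 𝓞 F) ∈ 𝔭 → sp F q ≤ 𝔭 := by
    intro 𝔭 h
    rw [Ideal.span_le]
    exact Set.singleton_subset_iff.2 h
  by_cases hw : w.asIdeal = 𝔮 q
  swap
  · -- the inert primes
    left
    intro 𝔓 hov
    have h2 : (2 : 𝓞 F) ∉ w.asIdeal := by
      intro h2
      apply w.isPrime.ne_top
      rw [Ideal.eq_top_iff_one]
      have e : (1 : 𝓞 F) = (q : 𝓞 F) - (2 : 𝓞 F) * ((q / 2 : ℕ) : 𝓞 F) := by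
        have h3 : q = 2 * (q / 2) + 1 := by omega
        have h4 : (q : 𝓞 F) = 2 * ((q / 2 : ℕ) : 𝓞 F) + 1 := by
          conv_lhs => rw [h3]
          push_cast
          ring
        rw [h4]
        ring
      rw [e]
      exact Ideal.sub_mem _ hqw (Ideal.mul_mem_right _ _ h2)
    have hirr : Irreducible (rd w.asIdeal f) := by
      have h3 := hPi w.asIdeal w.isPrime hqw hw
      have h4 : rd w.asIdeal f = rd w.asIdeal (P q) := by
        ext j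
        rw [coeff_map, coeff_map]
        exact Ideal.Quotient.eq.2 (hspan _ hqw (hcong q hqS j))
      rw [h4]
      exact h3
    exact inert_sq hI hPI hgen hsq w.isPrime w.ne_bot h2 hirr hα hn 𝔓 hov
  -- the prime `𝔮 q`
  rw [hw]
  have hCg : Cg (𝔮 q) f (X * r q) := by
    intro j
    have h1 := hspan _ hqm (hcong q hqS j)
    have h2 := hPc j
    have e : f.coeff j - (X * r q).coeff j = (f.coeff j - (P q).coeff j) +
        ((P q).coeff j - (X * r q).coeff j) := by ring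
    rw [e]
    exact Ideal.add_mem _ h1 h2
  obtain ⟨𝔓₁, 𝔓₂, ov1, ov2, hv1, hv2, hQ1, hQ2, hall⟩ :=
    hE g W F L f θ S 𝔮 r P hg hgen hsq hS q hqS hCg
  have hbig : ∀ 𝔓 : HeightOneSpectrum (𝓞 L), Pool.Agent.N783.PF.Ov (𝔮 q) 𝔓 →
      𝔓.valuation L θ = 1 → 𝔓 = 𝔓₂ := by
    intro 𝔓 hov hv
    rcases hall 𝔓 hov with h | h
    · rw [h] at hv
      exact absurd hv hv1.ne
    · exact h
  by_cases hev : Ev 𝔓₂ α
  · left
    refine hN g W F L f θ S 𝔮 r P hg hgen hsq hS q hqS hCg α hα hn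
      (hP g W F L f θ S 𝔮 r P hg hgen hsq hS q hqS hCg α hα hn) fun 𝔓 hov hv => ?_
    have h1 := hbig 𝔓 hov hv
    subst h1
    exact (hU 𝔓 hov hv).1 hev
  right
  -- the numbers `D` and `D'`
  obtain ⟨D, hDd⟩ : ∃ D : ℕ, D = Dp J := ⟨_, rfl⟩
  obtain ⟨D', hD'd⟩ : ∃ D' : ℕ, D' = ∏ p ∈ J.erase q, p := ⟨_, rfl⟩
  have hDD : D = q * D' := by
    rw [hDd, hD'd]
    exact (Finset.mul_prod_erase J (fun p => p) hqJ).symm
  have hD' : (D' : 𝓞 F) ∉ 𝔮 q := by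
    rw [hD'd, Nat.cast_prod]
    intro h
    rw [Ideal.IsPrime.prod_mem_iff] at h
    obtain ⟨p, hpJ, hpm⟩ := h
    have hpJ' := Finset.mem_erase.1 hpJ
    have hpp : p.Prime := (hS p (hJS hpJ'.2)).1
    have hcop : IsCoprime (p : ℤ) (q : ℤ) :=
      Nat.isCoprime_iff_coprime.2 ((Nat.coprime_primes hpp hqp).2 hpJ'.1)
    obtain ⟨a, b, hab⟩ := hcop
    apply hp.ne_top
    rw [Ideal.eq_top_iff_one]
    have e : (1 : 𝓞 F) = (a : 𝓞 F) * (p : 𝓞 F) + (b : 𝓞 F) * (q : 𝓞 F) := by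
      have := congrArg (fun n : ℤ => (n : 𝓞 F)) hab
      push_cast at this
      exact this.symm
    rw [e]
    exact Ideal.add_mem _ (Ideal.mul_mem_left _ _ hpm) (Ideal.mul_mem_left _ _ hqm)
  have hDm : (D : 𝓞 F) ∈ 𝔮 q := by
    rw [hDD, Nat.cast_mul]
    exact Ideal.mul_mem_right _ _ hqm
  -- the coefficients of `f`
  have hf0 : f.coeff 0 ∈ 𝔮 q := by
    have := hCg 0
    rwa [mul_coeff_zero, coeff_X_zero, zero_mul, sub_zero] at this
  have hmax : (𝔮 q).IsMaximal := hp.isMaximal hp0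
  have hf1 : f.coeff 1 ∉ 𝔮 q := by
    intro h1
    have h2 := hCg 1
    rw [coeff_X_mul] at h2
    have h3 : (r q).coeff 0 ∈ 𝔮 q := by
      have e : (r q).coeff 0 = f.coeff 1 - (f.coeff 1 - (r q).coeff 0) := by ring
      rw [e]
      exact Ideal.sub_mem _ h1 h2
    let _ : Field (𝓞 F ⧸ 𝔮 q) := Ideal.Quotient.field _
    have h4 : (X : (𝓞 F ⧸ 𝔮 q)[X]) ∣ rd (𝔮 q) (r q) := by
      rw [X_dvd_iff, coeff_map]
      exact Ideal.Quotient.eq_zero_iff_mem.2 h3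
    have h5 := hri.natDegree_pos
    have h6 : Associated (X : (𝓞 F ⧸ 𝔮 q)[X]) (rd (𝔮 q) (r q)) :=
      (irreducible_X).associated_of_dvd hri h4
    have h7 := natDegree_eq_of_degree_eq (degree_eq_degree_of_associated h6)
    rw [natDegree_X, rd, hrm.natDegree_map, hrd] at h7
    omega
  obtain ⟨x0, hx0, hfx⟩ := exists_x0 hp hp0 hf0 hf1 hDm
  -- valuations
  have hvq : ∀ 𝔓 : HeightOneSpectrum (𝓞 L), Pool.Agent.N783.PF.Ov (𝔮 q) 𝔓 →
      𝔓.valuation L (D : L) = WithZero.exp (-1 : ℤ) := by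
    intro 𝔓 hov
    have h1 : 𝔓.valuation L (D' : L) = 1 := by
      have e : (D' : L) = algebraMap (𝓞 L) L (algebraMap (𝓞 F) (𝓞 L) (D' : 𝓞 F)) := by
        rw [map_natCast, map_natCast]
      rw [e]
      refine 𝔓.valuation_eq_one_iff_notMem.mpr ?_
      rw [ov_iff hp hp0 hov]
      exact hD'
    have h2 : 𝔓.valuation L (q : L) = WithZero.exp (-1 : ℤ) := by
      rcases hall 𝔓 hov with h | h
      · rw [h, hQ1]
      · rw [h, hQ2]
    rw [hDD, Nat.cast_mul, map_mul, h1, h2, mul_one]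
  have hD0 : (D : L) ≠ 0 := by
    intro h
    have := hvq 𝔓₁ ov1
    rw [h, map_zero] at this
    exact WithZero.exp_ne_zero this.symm
  have hal : ∀ c : 𝓞 F, algebraMap (𝓞 F) L c = algebraMap (𝓞 L) L (algebraMap (𝓞 F) (𝓞 L) c) :=
    fun c => IsScalarTower.algebraMap_apply _ _ _ _
  -- the norm
  obtain ⟨u, hu⟩ : ∃ u : 𝓞 F, u = (D : 𝓞 F) ^ (2 * g + 1) * f.eval x0 := ⟨_, rfl⟩
  have hnorm : Algebra.norm F ((D : L) * (algebraMap (𝓞 F) L x0 - θ)) = algebraMap (𝓞 F) F u := by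
    have hDn : Algebra.norm F (D : L) = (D : F) ^ (2 * g + 1) := by
      have e : (D : L) = algebraMap F L (D : F) := (map_natCast (algebraMap F L) D).symm
      rw [e, Algebra.norm_algebraMap, hgen.rank]
    have hue : algebraMap (𝓞 F) F u = (D : F) ^ (2 * g + 1) * algebraMap (𝓞 F) F (f.eval x0) := by
      rw [hu, map_mul, map_pow, map_natCast]
    rw [map_mul, norm_lin (toG hgen), hDn, hue]
  have hsq_u : ∀ 𝔓 : HeightOneSpectrum (𝓞 L), Pool.Agent.N783.PF.Ov (𝔮 q) 𝔓 →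
      Sq1 𝔓 (algebraMap (𝓞 F) L u) := by
    intro 𝔓 hov
    refine sq1_congr' (x := ((D : L) ^ (g + 1)) ^ 2) ?_ (sq1_of_sq (pow_ne_zero _ hD0))
    have e : algebraMap (𝓞 F) L u - ((D : L) ^ (g + 1)) ^ 2 =
        (D : L) ^ (2 * g + 1) * algebraMap (𝓞 F) L (f.eval x0 - (D : 𝓞 F)) := by
      rw [hu, map_mul, map_pow, map_natCast, map_sub, map_natCast]
      ring
    have e2 : ((D : L) ^ (g + 1)) ^ 2 = (D : L) ^ (2 * g + 1) * (D : L) := by ring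
    rw [e, e2, map_mul, map_mul]
    have h1 : 0 < 𝔓.valuation L ((D : L) ^ (2 * g + 1)) :=
      zero_lt_iff.2 ((Valuation.ne_zero_iff _).2 (pow_ne_zero _ hD0))
    refine (mul_lt_mul_iff_right₀ h1).2 ?_
    rw [hvq 𝔓 hov, hal]
    have h2 : algebraMap (𝓞 F) (𝓞 L) (f.eval x0 - (D : 𝓞 F)) ∈ 𝔓.asIdeal ^ 2 := by
      have h3 : (𝔮 q).map (algebraMap (𝓞 F) (𝓞 L)) ≤ 𝔓.asIdeal := by
        rw [Ideal.map_le_iff_le_comap]
        exact hov
      have h4 := Ideal.mem_map_of_mem (algebraMap (𝓞 F) (𝓞 L)) hfx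
      rw [Ideal.map_pow] at h4
      exact Ideal.pow_right_mono h3 2 h4
    rw [HeightOneSpectrum.valuation_of_algebraMap]
    refine ((𝔓.intValuation_le_pow_iff_mem _ 2).2 h2).trans_lt ?_
    exact WithZero.exp_lt_exp.2 (by norm_num)
  -- the class at the big prime
  have hbigS : Sq1 𝔓₂ ((D : L) * (algebraMap (𝓞 F) L x0 - θ) * α) := by
    have h1 := (hU 𝔓₂ ov2 hv2).2 hev
    have h2 := (hC g W F L f θ S 𝔮 r P hg hgen hsq hS q hqS hCg 𝔓₂ ov2 hv2).1 (-(D' : 𝓞 F))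
      (by rwa [Ideal.neg_mem_iff])
    have h3 := sq1_mul' h1 h2
    refine sq1_congr' ?_ h3
    have e1 : algebraMap F L ((-(D' : 𝓞 F) : 𝓞 F) : F) = -(D' : L) := by
      have : ((-(D' : 𝓞 F) : 𝓞 F) : F) = -(D' : F) := by
        push_cast
        rfl
      rw [this, map_neg, map_natCast]
    have e2 : α * ((q : L) * θ) * algebraMap F L ((-(D' : 𝓞 F) : 𝓞 F) : F) =
        -((D : L) * θ * α) := by
      rw [e1, hDD, Nat.cast_mul]
      ring
    rw [e2]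
    have e3 : (D : L) * (algebraMap (𝓞 F) L x0 - θ) * α - -((D : L) * θ * α) =
        (D : L) * algebraMap (𝓞 F) L x0 * α := by ring
    rw [e3, Valuation.map_neg, map_mul, map_mul, map_mul, map_mul, hv2, mul_one]
    have h4 : 0 < 𝔓₂.valuation L α := zero_lt_iff.2 ((Valuation.ne_zero_iff _).2 hα)
    have h5 : 0 < 𝔓₂.valuation L (D : L) := zero_lt_iff.2 ((Valuation.ne_zero_iff _).2 hD0)
    refine (mul_lt_mul_iff_left₀ h4).2 (mul_lt_of_lt_one_right h5 ?_)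
    rw [hal]
    exact (𝔓₂.valuation_lt_one_iff_mem (K := L) _).2 (ov2 _ hx0)
  have hlin0 : (D : L) * (algebraMap (𝓞 F) L x0 - θ) ≠ 0 := by
    intro h
    obtain ⟨s, hs⟩ := hbigS
    rw [h, zero_mul, map_zero] at hs
    exact absurd hs (not_lt.2 zero_le')
  have hu0 : algebraMap (𝓞 F) L u ≠ 0 := by
    intro h
    obtain ⟨s, hs⟩ := hsq_u 𝔓₁ ov1
    rw [h, map_zero] at hs
    exact absurd hs (not_lt.2 zero_le')
  have hFu : algebraMap (𝓞 F) L u = algebraMap F L (algebraMap (𝓞 F) F u) :=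
    IsScalarTower.algebraMap_apply _ _ _ _
  -- the auxiliary element
  have hy0 : (D : L) * (algebraMap (𝓞 F) L x0 - θ) * α * algebraMap (𝓞 F) L u ≠ 0 :=
    mul_ne_zero (mul_ne_zero hlin0 hα) hu0
  have hyn : IsSquare (Algebra.norm F
      ((D : L) * (algebraMap (𝓞 F) L x0 - θ) * α * algebraMap (𝓞 F) L u)) := by
    obtain ⟨v, hv⟩ := hn
    rw [map_mul, map_mul, hnorm, hv, hFu, Algebra.norm_algebraMap, hgen.rank]
    exact ⟨algebraMap (𝓞 F) F u ^ (g + 1) * v, by ring⟩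
  have hall2 := hN g W F L f θ S 𝔮 r P hg hgen hsq hS q hqS hCg _ hy0 hyn
    (hP g W F L f θ S 𝔮 r P hg hgen hsq hS q hqS hCg _ hy0 hyn) fun 𝔓 hov hv => by
      have h1 := hbig 𝔓 hov hv
      subst h1
      exact sq1_mul' hbigS (hsq_u _ hov)
  refine ⟨(D : F) * algebraMap (𝓞 F) F x0, fun 𝔓 hov => ?_⟩
  have h1 := sq1_mul' (hall2 𝔓 hov) (hsq_u 𝔓 hov)
  have e : (D : L) * (algebraMap (𝓞 F) L x0 - θ) * α * algebraMap (𝓞 F) L u *
      algebraMap (𝓞 F) L u = ((D : L) * (algebraMap (𝓞 F) L x0 - θ) * α) *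
        algebraMap (𝓞 F) L u ^ 2 := by ring
  rw [e, sq1_mul_sq hu0] at h1
  have e2 : (algebraMap F L ((D : F) * algebraMap (𝓞 F) F x0) - ((Dp J : ℕ) : L) * θ) * α =
      (D : L) * (algebraMap (𝓞 F) L x0 - θ) * α := by
    rw [← hDd, map_mul, map_natCast, ← IsScalarTower.algebraMap_apply]
    ring
  rw [e2]
  exact h1

end Pool.Agent.L0h68.SP
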